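import Pool.Agent.H468.X15G.JLaw

/-!
# The binomial law
-/

set_option autoImplicit false
set_option linter.all false

open Filter Topology

namespace Pool.Agent.H468.X15.GF

open Pool.Agent.H757_X15.DD (Fm Crit)
open DX

open Classical in
/-- the number of the `M ∈ T` with `P (tw M D)` -/
noncomputable def count (P : ℕ → Prop) (T : Finset ℕ) (D : ℕ) : ℕ :=
  (T.filter fun M => P (tw M D)).card

lemma num_count (P : ℕ → Prop) (T : Finset ℕ) (k X : ℕ) :
    num (fun D => count P T D = k) X =
      ∑ V ∈ T.powersetCard k, num (fun D => ∀ M ∈ T, (P (tw M D) ↔ M ∈ V)) X := by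
  classical
  have h1 : fam (fun D => count P T D = k) X = (T.powersetCard k).biUnion fun V =>
      fam (fun D => ∀ M ∈ T, (P (tw M D) ↔ M ∈ V)) X := by
    ext D
    rw [mem_fam, Finset.mem_biUnion]
    constructor
    · rintro ⟨h1, h2, h3⟩
      refine ⟨T.filter fun M => P (tw M D), ?_, ?_⟩
      · rw [Finset.mem_powersetCard]
        refine ⟨Finset.filter_subset _ _, ?_⟩
        rw [← h3]
        unfold count
        congr
      · rw [mem_fam]
        refine ⟨h1, h2, fun M hM => ?_⟩
        rw [Finset.mem_filter]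
        exact ⟨fun h => ⟨hM, h⟩, fun h => h.2⟩
    · rintro ⟨V, hV, h⟩
      rw [mem_fam] at h
      rw [Finset.mem_powersetCard] at hV
      refine ⟨h.1, h.2.1, ?_⟩
      have : (T.filter fun M => P (tw M D)) = V := by
        ext M
        rw [Finset.mem_filter]
        constructor
        · rintro ⟨h1, h2⟩
          exact (h.2.2 M h1).1 h2
        · intro hM
          exact ⟨hV.1 hM, (h.2.2 M (hV.1 hM)).2 hM⟩
      rw [← hV.2, ← this]
      unfold count
      congr
  rw [num_eq, h1, Finset.card_biUnion]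
  · rfl
  · intro V hV V' hV' hne
    rw [Function.onFun, Finset.disjoint_left]
    intro D h2 h3
    rw [mem_fam] at h2 h3
    rw [Finset.mem_coe, Finset.mem_powersetCard] at hV hV'
    apply hne
    ext M
    constructor
    · intro hM
      exact (h3.2.2 M (hV.1 hM)).1 ((h2.2.2 M (hV.1 hM)).2 hM)
    · intro hM
      exact (h2.2.2 M (hV'.1 hM)).1 ((h3.2.2 M (hV'.1 hM)).2 hM)

/-- **The binomial law** of a property which is equivalent to the criterion -/
theorem binom_of {P : ℕ → Prop} (hP : ∀ D, Family D → D ≠ 1 → (P D ↔ Crit D)) (T : Finset ℕ)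
    (hT : ∀ M ∈ T, Family M) (k : ℕ) :
    Tendsto (fun X : ℕ => (num (fun D => count P T D = k) X : ℝ) /
      (num (fun _ => True) X : ℝ)) atTop
      (𝓝 ((T.card.choose k : ℝ) * c ^ k * (1 - c) ^ (T.card - k))) := by
  have h1 : Tendsto (fun X : ℕ => ∑ V ∈ T.powersetCard k,
      (num (fun D => ∀ M ∈ T, (P (tw M D) ↔ M ∈ V)) X : ℝ) / (num (fun _ => True) X : ℝ)) atTop
      (𝓝 (∑ V ∈ T.powersetCard k, c ^ V.card * (1 - c) ^ (T.card - V.card))) :=
    tendsto_finset_sum _ fun V hV => law_of hP T V hT (Finset.mem_powersetCard.1 hV).1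
  have h2 : (∑ V ∈ T.powersetCard k, c ^ V.card * (1 - c) ^ (T.card - V.card)) =
      (T.card.choose k : ℝ) * c ^ k * (1 - c) ^ (T.card - k) := by
    rw [Finset.sum_congr rfl fun V hV => by rw [(Finset.mem_powersetCard.1 hV).2],
      Finset.sum_const, Finset.card_powersetCard, nsmul_eq_mul, mul_assoc]
  rw [h2] at h1
  refine h1.congr fun X => ?_
  rw [num_count, Nat.cast_sum, Finset.sum_div]

end Pool.Agent.H468.X15.GF
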