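import Mathlib
import Pool.Graph.R_seed8.H66R2.RZ_FI1
import Pool.Agent.H468.X15T.Dens

/-!
# The number of the squarefree integers `d` with `|d| < X`
-/

set_option autoImplicit false
set_option linter.all false

open Filter Topology

namespace Pool.Agent.H468.X15.GF

open Pool.Agent.H306R2.RZ (OS)

/-- the number of the squarefree `n`, `1 ≤ n ≤ N` -/
noncomputable def sq (N : ℕ) : ℕ := by
  classical
  exact ((Finset.Icc 1 N).filter Squarefree).card

open Classical in
/-- odd ones -/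
noncomputable def so (N : ℕ) : ℕ := ((Finset.Icc 1 N).filter fun n => Odd n ∧ Squarefree n).card

lemma so_eq (N : ℕ) : (OS ∩ {d | d ≤ N}).ncard = so N := by
  classical
  have h1 : (OS ∩ {d | d ≤ N}) = ((Finset.Icc 1 N).filter fun n => Odd n ∧ Squarefree n : Finset ℕ) := by
    ext n
    simp only [OS, Set.mem_inter_iff, Set.mem_ofPred_eq, Finset.coe_filter, Finset.mem_Icc]
    constructor
    · rintro ⟨h, h2⟩
      have h3 : Odd n ∧ Squarefree n := by
        first
        | exact h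
        | exact ⟨h.1, h.2⟩
        | exact ⟨h.2, h.1⟩
      exact ⟨⟨Nat.pos_of_ne_zero h3.2.ne_zero, h2⟩, h3⟩
    · rintro ⟨⟨_, h2⟩, h3⟩
      exact ⟨h3, h2⟩
  rw [h1, Set.ncard_coe_finset]
  unfold so
  congr

lemma so_lim : Tendsto (fun N : ℕ => (so N : ℝ) / N) atTop (𝓝 (4 / Real.pi ^ 2)) := by
  refine Pool.Agent.H66R2.RZFI1.FI1.congr fun N => ?_
  rw [so_eq]

lemma even_sq {m : ℕ} : Squarefree (2 * m) ↔ Odd m ∧ Squarefree m := by
  constructor
  · intro h
    have h1 := (Nat.squarefree_mul_iff (m := 2) (n := m)).1 h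
    exact ⟨(Nat.coprime_two_left).1 h1.1, h1.2.2⟩
  · rintro ⟨h1, h2⟩
    exact (Nat.squarefree_mul_iff (m := 2) (n := m)).2
      ⟨(Nat.coprime_two_left).2 h1, Nat.prime_two.prime.squarefree, h2⟩

lemma sq_split (N : ℕ) : sq N = so N + so (N / 2) := by
  classical
  have h1 : (Finset.Icc 1 N).filter Squarefree =
      ((Finset.Icc 1 N).filter fun n => Odd n ∧ Squarefree n) ∪
      (((Finset.Icc 1 (N / 2)).filter fun n => Odd n ∧ Squarefree n).image fun m => 2 * m) := by
    ext n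
    simp only [Finset.mem_filter, Finset.mem_union, Finset.mem_image, Finset.mem_Icc]
    constructor
    · rintro ⟨⟨h1, h2⟩, h3⟩
      rcases Nat.even_or_odd n with he | ho
      · right
        obtain ⟨m, hm⟩ := he
        have hm' : n = 2 * m := by omega
        refine ⟨m, ⟨⟨by omega, by omega⟩, ?_⟩, hm'.symm⟩
        rw [hm'] at h3
        exact even_sq.1 h3
      · exact Or.inl ⟨⟨h1, h2⟩, ho, h3⟩
    · rintro (⟨⟨h1, h2⟩, _, h3⟩ | ⟨m, ⟨⟨h1, h2⟩, h3⟩, rfl⟩)
      · exact ⟨⟨h1, h2⟩, h3⟩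
      · exact ⟨⟨by omega, by omega⟩, even_sq.2 h3⟩
  have h2 : Disjoint ((Finset.Icc 1 N).filter fun n => Odd n ∧ Squarefree n)
      (((Finset.Icc 1 (N / 2)).filter fun n => Odd n ∧ Squarefree n).image fun m => 2 * m) := by
    rw [Finset.disjoint_left]
    intro n hn h
    simp only [Finset.mem_filter, Finset.mem_image] at hn h
    obtain ⟨m, _, rfl⟩ := h
    exact absurd hn.2.1 (by simp)
  unfold sq
  have h3 : ((Finset.Icc 1 N).filter Squarefree).card = so N + so (N / 2) := by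
    rw [h1, Finset.card_union_of_disjoint h2, Finset.card_image_of_injective _ (by
      intro a b h
      simpa using h)]
    rfl
  convert h3

lemma sq_lim : Tendsto (fun N : ℕ => (sq N : ℝ) / N) atTop (𝓝 (6 / Real.pi ^ 2)) := by
  have h1 : Tendsto (fun N : ℕ => N / 2) atTop atTop := Nat.tendsto_div_const_atTop (by norm_num)
  have h2 := so_lim.comp h1
  have h3 : Tendsto (fun N : ℕ => (((N / 2 : ℕ) : ℝ)) / N) atTop (𝓝 (1 / 2)) := by
    have h4 : Tendsto (fun N : ℕ => (1 : ℝ) / N) atTop (𝓝 0) := tendsto_one_div_atTop_nhds_zero_nat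
    have h5 : Tendsto (fun N : ℕ => (1 : ℝ) / 2 - 1 / N) atTop (𝓝 (1 / 2)) := by
      simpa using tendsto_const_nhds.sub h4
    refine tendsto_of_tendsto_of_tendsto_of_le_of_le' h5 tendsto_const_nhds ?_ ?_
    · filter_upwards [eventually_gt_atTop 0] with N hN
      have hN' : (0 : ℝ) < N := by exact_mod_cast hN
      rw [le_div_iff₀ hN', sub_mul, one_div_mul_cancel hN'.ne']
      have h6 : N ≤ 2 * (N / 2) + 1 := by omega
      have h7 : (N : ℝ) ≤ 2 * ((N / 2 : ℕ) : ℝ) + 1 := by exact_mod_cast h6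
      linarith
    · filter_upwards [eventually_gt_atTop 0] with N hN
      have hN' : (0 : ℝ) < N := by exact_mod_cast hN
      rw [div_le_iff₀ hN']
      have h6 : 2 * (N / 2) ≤ N := by omega
      have h7 : 2 * ((N / 2 : ℕ) : ℝ) ≤ N := by exact_mod_cast h6
      linarith
  have h4 := h2.mul h3
  have h5 := so_lim.add h4
  have e : 4 / Real.pi ^ 2 + 4 / Real.pi ^ 2 * (1 / 2) = 6 / Real.pi ^ 2 := by ring
  rw [e] at h5
  refine h5.congr' ?_
  filter_upwards [eventually_gt_atTop 1] with N hN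
  have hN' : (0 : ℝ) < N := by exact_mod_cast (by omega : 0 < N)
  have hN2 : (0 : ℝ) < ((N / 2 : ℕ) : ℝ) := by exact_mod_cast (by omega : 0 < N / 2)
  simp only [Function.comp]
  rw [sq_split]
  push_cast
  field_simp

/-- the squarefree integers `d` with `|d| < X` -/
def DD (X : ℝ) : Set ℤ := {d : ℤ | Squarefree d ∧ |(d : ℝ)| < X}

lemma finite_DD (X : ℝ) : (DD X).Finite := by
  refine (Set.finite_Icc (-⌈X⌉) ⌈X⌉).subset ?_
  rintro d ⟨_, h2⟩
  rw [abs_lt] at h2
  have h3 : (X : ℝ) ≤ (⌈X⌉ : ℝ) := Int.le_ceil X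
  constructor
  · have : ((-⌈X⌉ : ℤ) : ℝ) ≤ d := by push_cast; linarith
    exact_mod_cast this
  · have : (d : ℝ) ≤ (⌈X⌉ : ℝ) := by linarith
    exact_mod_cast this

/-- the largest natural number `< X` -/
noncomputable def fl (X : ℝ) : ℕ := ⌈X⌉₊ - 1

lemma lt_iff {X : ℝ} (hX : 0 < X) (n : ℕ) : (n : ℝ) < X ↔ n ≤ fl X := by
  unfold fl
  have h1 : 0 < ⌈X⌉₊ := Nat.ceil_pos.2 hX
  have h2 : (n : ℝ) < X ↔ n < ⌈X⌉₊ := Nat.lt_ceil.symm
  rw [h2]
  omega

lemma fl_lim : Tendsto (fun X : ℝ => (fl X : ℝ) / X) atTop (𝓝 1) := by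
  have h4 : Tendsto (fun X : ℝ => (1 : ℝ) / X) atTop (𝓝 0) := by
    simpa using tendsto_inv_atTop_zero
  have h5 : Tendsto (fun X : ℝ => (1 : ℝ) - 1 / X) atTop (𝓝 1) := by
    simpa using tendsto_const_nhds.sub h4
  refine tendsto_of_tendsto_of_tendsto_of_le_of_le' h5 tendsto_const_nhds ?_ ?_
  · filter_upwards [eventually_gt_atTop 0] with X hX
    rw [le_div_iff₀ hX, sub_mul, one_div_mul_cancel hX.ne', one_mul]
    have h1 : 0 < ⌈X⌉₊ := Nat.ceil_pos.2 hX
    have h2 : (fl X : ℝ) = (⌈X⌉₊ : ℝ) - 1 := by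
      unfold fl
      rw [Nat.cast_sub h1]
      norm_num
    rw [h2]
    have := Nat.le_ceil X
    linarith
  · filter_upwards [eventually_gt_atTop 0] with X hX
    rw [div_le_iff₀ hX, one_mul]
    exact ((lt_iff hX (fl X)).2 le_rfl).le

lemma fl_atTop : Tendsto fl atTop atTop := by
  rw [tendsto_atTop]
  intro b
  filter_upwards [eventually_gt_atTop ((b : ℝ) + 1)] with X hX
  exact (lt_iff (by linarith [Nat.cast_nonneg (α := ℝ) b]) b).1 (by linarith)

open Classical in
lemma card_DD {X : ℝ} (hX : 0 < X) : (DD X).ncard = 2 * sq (fl X) := by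
  have h1 : DD X = (((Finset.Icc 1 (fl X)).filter Squarefree).image (fun n : ℕ => (n : ℤ)) ∪
      ((Finset.Icc 1 (fl X)).filter Squarefree).image (fun n : ℕ => -(n : ℤ)) : Finset ℤ) := by
    ext d
    simp only [DD, Set.mem_setOf_eq, Finset.coe_union, Finset.coe_image, Set.mem_union, Set.mem_image,
      Finset.coe_filter, Finset.mem_Icc]
    constructor
    · rintro ⟨h1, h2⟩
      have h3 : Squarefree d.natAbs := Int.squarefree_natAbs.2 h1
      have h4 : 1 ≤ d.natAbs := Nat.pos_of_ne_zero h3.ne_zero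
      have h5 : ((d.natAbs : ℕ) : ℝ) < X := by
        rw [Nat.cast_natAbs, Int.cast_abs]
        exact h2
      have h6 := (lt_iff hX _).1 h5
      rcases le_total 0 d with h | h
      · left
        exact ⟨d.natAbs, ⟨⟨h4, h6⟩, h3⟩, by omega⟩
      · right
        exact ⟨d.natAbs, ⟨⟨h4, h6⟩, h3⟩, by omega⟩
    · rintro (⟨n, ⟨⟨h1, h2⟩, h3⟩, rfl⟩ | ⟨n, ⟨⟨h1, h2⟩, h3⟩, rfl⟩)
      · refine ⟨Int.squarefree_natCast.2 h3, ?_⟩
        have := (lt_iff hX _).2 h2
        simpa using this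
      · refine ⟨?_, ?_⟩
        · rw [← Int.squarefree_natAbs, Int.natAbs_neg, Int.natAbs_natCast]
          exact h3
        · have := (lt_iff hX _).2 h2
          simpa using this
  have hd : Disjoint (((Finset.Icc 1 (fl X)).filter Squarefree).image (fun n : ℕ => (n : ℤ)))
      (((Finset.Icc 1 (fl X)).filter Squarefree).image (fun n : ℕ => -(n : ℤ))) := by
    rw [Finset.disjoint_left]
    intro d h1 h2
    simp only [Finset.mem_image, Finset.mem_filter, Finset.mem_Icc] at h1 h2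
    obtain ⟨n, ⟨⟨h3, _⟩, _⟩, rfl⟩ := h1
    obtain ⟨m, ⟨⟨h4, _⟩, _⟩, h5⟩ := h2
    omega
  rw [h1, Set.ncard_coe_finset, Finset.card_union_of_disjoint hd,
    Finset.card_image_of_injective _ Nat.cast_injective,
    Finset.card_image_of_injective _ (fun a b h => by
      have : (a : ℤ) = b := by simpa using h
      exact_mod_cast this), ← two_mul]
  congr 1

lemma DD_lim : Tendsto (fun X : ℝ => ((DD X).ncard : ℝ) / X) atTop (𝓝 (12 / Real.pi ^ 2)) := by
  have h1 := (sq_lim.comp fl_atTop).mul fl_lim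
  have h2 := h1.const_mul 2
  have e : 2 * (6 / Real.pi ^ 2 * 1) = 12 / Real.pi ^ 2 := by ring
  rw [e] at h2
  refine h2.congr' ?_
  have h3 : ∀ᶠ X : ℝ in atTop, 0 < fl X := fl_atTop.eventually_gt_atTop 0
  filter_upwards [eventually_gt_atTop 0, h3] with X hX h4
  have h5 : (0 : ℝ) < (fl X : ℝ) := by exact_mod_cast h4
  simp only [Function.comp]
  rw [card_DD hX]
  push_cast
  field_simp

end Pool.Agent.H468.X15.GF
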